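import Mathlib
import Pool.Agent.W868.FI.Stms2

/-!
# Part ARG of project FI (helper868)
-/

set_option autoImplicit false
set_option linter.all false

namespace Pool.Agent.W540.FI

open MeasureTheory Set
open Pool.Agent.W868.FI

section

variable {D Y : Type} [Fintype D] [Fintype Y] [MeasurableSpace Y] [MeasurableSingletonClass Y]
  (ρ : Measure Y) [IsProbabilityMeasure ρ]

/-- `g` is the place of the strict minimum -/
def A (enc : Y → ℕ) (g : D) : Set (D → Y) := {l | ∀ g', g' ≠ g → enc (l g) < enc (l g')}

lemma meas (s : Set (D → Y)) : MeasurableSet s := s.toFinite.measurableSet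

lemma A_eq (enc : Y → ℕ) (g h : D) :
    Measure.pi (fun _ : D => ρ) (A enc g) = Measure.pi (fun _ : D => ρ) (A enc h) := by
  classical
  let e : D ≃ D := Equiv.swap g h
  have h1 := measurePreserving_piCongrLeft (fun _ : D => ρ) e
  have h2 := h1.measure_preimage (meas (A enc h)).nullMeasurableSet
  rw [← h2]
  congr 1
  ext l
  simp only [A, Set.mem_preimage, Set.mem_setOf_eq]
  have h3 : ∀ j : D, (MeasurableEquiv.piCongrLeft (fun _ : D => Y) e) l j = l (e.symm j) := by
    intro j
    obtain ⟨i, rfl⟩ := e.surjective j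
    rw [Equiv.symm_apply_apply]
    exact Equiv.piCongrLeft_apply_apply (fun _ : D => Y) e l i
  have h4 : e.symm h = g := by
    simp [e]
  simp only [h3, h4]
  constructor
  · intro k g' hg'
    apply k
    intro h5
    apply hg'
    rw [← h4] at h5
    exact e.symm.injective h5
  · intro k g' hg'
    have := k (e g') (by
      intro h5
      apply hg'
      have : g' = e.symm h := by rw [← h5, Equiv.symm_apply_apply]
      rw [this, h4])
    rwa [Equiv.symm_apply_apply] at this

lemma A_le [Nonempty D] (enc : Y → ℕ) (g : D) :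
    Measure.pi (fun _ : D => ρ) (A enc g) ≤ 1 / (Fintype.card D : ENNReal) := by
  classical
  have h1 : ∑ h : D, Measure.pi (fun _ : D => ρ) (A enc h) ≤ 1 := by
    rw [← tsum_fintype (L := SummationFilter.unconditional D), ← measure_iUnion]
    · exact prob_le_one
    · intro h k hk
      rw [Function.onFun, Set.disjoint_left]
      intro l h1 h2
      have := h1 k hk.symm
      have := h2 h hk
      omega
    · intro h
      exact meas _
  rw [Finset.sum_congr rfl (fun h _ => A_eq ρ enc h g), Finset.sum_const, Finset.card_univ,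
    nsmul_eq_mul] at h1
  rw [ENNReal.le_div_iff_mul_le (Or.inl (by simp)) (Or.inl (by simp)), mul_comm]
  exact h1

lemma eq_le (β : ENNReal) (hβ : ∀ y, ρ {y} ≤ β) {g h : D} (hgh : g ≠ h) :
    Measure.pi (fun _ : D => ρ) {l | l g = l h} ≤ β := by
  classical
  have h1 : {l : D → Y | l g = l h} ⊆
      ⋃ y : Y, Set.pi Set.univ (fun i => if i = g ∨ i = h then ({y} : Set Y) else Set.univ) := by
    intro l hl
    rw [Set.mem_iUnion]
    refine ⟨l g, ?_⟩
    intro i _
    simp only
    split_ifs with hi
    · rcases hi with rfl | rfl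
      · rfl
      · exact hl.symm
    · trivial
  have h2 : ∀ y : Y, Measure.pi (fun _ : D => ρ)
      (Set.pi Set.univ (fun i => if i = g ∨ i = h then ({y} : Set Y) else Set.univ)) ≤
        β * ρ {y} := by
    intro y
    rw [Measure.pi_pi]
    have h3 : ∀ i : D, ρ (if i = g ∨ i = h then ({y} : Set Y) else Set.univ) =
        if i ∈ ({g, h} : Finset D) then ρ {y} else 1 := by
      intro i
      simp only [Finset.mem_insert, Finset.mem_singleton]
      split_ifs
      · rfl
      · exact measure_univ
    rw [Finset.prod_congr rfl (fun i _ => h3 i), Finset.prod_ite_mem, Finset.univ_inter,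
      Finset.prod_const, Finset.card_pair hgh, pow_two]
    exact mul_le_mul_left (hβ y) _
  calc Measure.pi (fun _ : D => ρ) {l | l g = l h} ≤ _ := measure_mono h1
    _ ≤ ∑ y : Y, Measure.pi (fun _ : D => ρ)
      (Set.pi Set.univ (fun i => if i = g ∨ i = h then ({y} : Set Y) else Set.univ)) :=
        measure_iUnion_fintype_le _ _
    _ ≤ ∑ y : Y, β * ρ {y} := Finset.sum_le_sum (fun y _ => h2 y)
    _ = β * ∑ y : Y, ρ {y} := by rw [Finset.mul_sum]
    _ = β * ρ (Finset.univ : Finset Y) := by rw [sum_measure_singleton]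
    _ ≤ β * 1 := by
        gcongr
        exact prob_le_one
    _ = β := mul_one β

lemma bad_le [Nonempty D] (enc : Y → ℕ) (henc : Function.Injective enc) (β : ENNReal)
    (hβ : ∀ y, ρ {y} ≤ β) (D₀ : Finset D) :
    Measure.pi (fun _ : D => ρ) {l | ¬ ∃ g, g ∉ D₀ ∧ ∀ g', g' ≠ g → enc (l g) < enc (l g')} ≤
      (D₀.card : ENNReal) * (1 / (Fintype.card D : ENNReal)) +
        ((Fintype.card D * Fintype.card D : ℕ) : ENNReal) * β := by
  classical
  have h1 : {l : D → Y | ¬ ∃ g, g ∉ D₀ ∧ ∀ g', g' ≠ g → enc (l g) < enc (l g')} ⊆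
      (⋃ g ∈ D₀, A enc g) ∪
        ⋃ p ∈ (Finset.univ : Finset (D × D)).filter (fun p => p.1 ≠ p.2),
          {l : D → Y | l p.1 = l p.2} := by
    intro l hl
    simp only [Set.mem_setOf_eq] at hl
    obtain ⟨g, -, hg⟩ := Finset.exists_min_image Finset.univ (fun g => enc (l g))
      ⟨Classical.arbitrary D, Finset.mem_univ _⟩
    by_cases hA : l ∈ A enc g
    · left
      rw [Set.mem_iUnion₂]
      refine ⟨g, ?_, hA⟩
      by_contra hg0
      exact hl ⟨g, hg0, hA⟩
    · right
      simp only [A, Set.mem_setOf_eq, not_forall] at hA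
      obtain ⟨g', hg', h2⟩ := hA
      rw [Set.mem_iUnion₂]
      refine ⟨(g, g'), by simpa using fun h => hg' h.symm, ?_⟩
      have h3 := hg g' (Finset.mem_univ _)
      apply henc
      simp only at h2 h3 ⊢
      omega
  refine (measure_mono h1).trans ((measure_union_le _ _).trans (add_le_add ?_ ?_))
  · refine (measure_biUnion_finset_le _ _).trans ?_
    calc ∑ g ∈ D₀, Measure.pi (fun _ : D => ρ) (A enc g) ≤
        ∑ g ∈ D₀, 1 / (Fintype.card D : ENNReal) := Finset.sum_le_sum (fun g _ => A_le ρ enc g)
      _ = _ := by rw [Finset.sum_const, nsmul_eq_mul]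
  · refine (measure_biUnion_finset_le _ _).trans ?_
    calc ∑ p ∈ (Finset.univ : Finset (D × D)).filter (fun p => p.1 ≠ p.2),
          Measure.pi (fun _ : D => ρ) {l : D → Y | l p.1 = l p.2} ≤
        ∑ p ∈ (Finset.univ : Finset (D × D)).filter (fun p => p.1 ≠ p.2), β := by
          apply Finset.sum_le_sum
          intro p hp
          exact eq_le ρ β hβ (Finset.mem_filter.1 hp).2
      _ ≤ _ := by
          rw [Finset.sum_const, nsmul_eq_mul]
          gcongr
          refine (Finset.card_filter_le _ _).trans ?_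
          rw [Finset.card_univ, Fintype.card_prod]

end

theorem arg : S_ARG := by
  classical
  intro ν _ h1 h2 D _ _ ε hε
  set β : ENNReal := max (ν {true}) (ν {false}) with hβ
  have hsum : ν {true} + ν {false} = 1 := by
    rw [← measure_union (by simp) (MeasurableSet.singleton _)]
    have : ({true} ∪ {false} : Set Bool) = Set.univ := by
      ext b
      cases b <;> simp
    rw [this, measure_univ]
  have hβ1 : β < 1 := by
    rw [hβ, max_lt_iff]
    constructor
    · by_contra h3
      rw [not_lt] at h3
      have h4 : 1 + ν {false} ≤ 1 + 0 := by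
        rw [add_zero]
        calc 1 + ν {false} ≤ ν {true} + ν {false} := by gcongr
          _ = 1 := hsum
      have := (ENNReal.add_le_add_iff_left ENNReal.one_ne_top).1 h4
      exact absurd h2 (not_lt.2 this)
    · by_contra h3
      rw [not_lt] at h3
      have h4 : 1 + ν {true} ≤ 1 + 0 := by
        rw [add_zero]
        calc 1 + ν {true} ≤ ν {false} + ν {true} := by gcongr
          _ = 1 := by rw [add_comm, hsum]
      have := (ENNReal.add_le_add_iff_left ENNReal.one_ne_top).1 h4
      exact absurd h1 (not_lt.2 this)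
  have hc : 0 < ENNReal.ofReal ε / ((Fintype.card D * Fintype.card D : ℕ) : ENNReal) := by
    apply ENNReal.div_pos
    · simpa using hε
    · exact ENNReal.natCast_ne_top _
  have ht := ENNReal.tendsto_pow_atTop_nhds_zero_of_lt_one hβ1
  obtain ⟨M, hM⟩ := (ht.eventually (gt_mem_nhds hc)).exists
  obtain ⟨enc, henc⟩ := Countable.exists_injective_nat (Fin M → Bool)
  refine ⟨M, enc, henc, fun D₀ => ?_⟩
  have hρ : ∀ y : Fin M → Bool, Measure.pi (fun _ : Fin M => ν) {y} ≤ β ^ M := by
    intro y
    rw [Measure.pi_singleton]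
    calc ∏ i, ν {y i} ≤ ∏ i : Fin M, β := by
          apply Finset.prod_le_prod'
          intro i _
          cases y i
          · exact le_max_right _ _
          · exact le_max_left _ _
      _ = β ^ M := by simp
  refine (bad_le (Measure.pi (fun _ : Fin M => ν)) enc henc (β ^ M) hρ D₀).trans ?_
  have hcard : (Fintype.card D : ℝ) ≠ 0 := by simp
  rw [ENNReal.ofReal_add (by positivity) hε.le]
  apply add_le_add
  · rw [ENNReal.ofReal_div_of_pos (by positivity), ENNReal.ofReal_natCast, ENNReal.ofReal_natCast,
      mul_one_div]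
  · have h5 : ((Fintype.card D * Fintype.card D : ℕ) : ENNReal) ≠ 0 := by
      simp
    calc ((Fintype.card D * Fintype.card D : ℕ) : ENNReal) * β ^ M ≤
        ((Fintype.card D * Fintype.card D : ℕ) : ENNReal) *
          (ENNReal.ofReal ε / ((Fintype.card D * Fintype.card D : ℕ) : ENNReal)) := by
          gcongr
      _ = ENNReal.ofReal ε := ENNReal.mul_div_cancel h5 (ENNReal.natCast_ne_top _)

end Pool.Agent.W540.FI
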